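import Pool.Agent.Y985.ME.Stm
import Pool.Agent.H984R4.NP.AllOkOf
import Pool.Agent.H984R4.NP.LayerD

/-!
Job ME-BADPR (helper985), by helper991: the bad event of a block is local and has small
probability.
-/

set_option autoImplicit false

namespace Pool.Agent.Y991.ME

open H974 Finset H342P H984P H984N Pool.Agent.Y985.ME

theorem half_ok : Ok (fun _ : Edg => (1/2:ℝ)) := fun _ => ⟨by norm_num, by norm_num⟩

theorem Lam_sub (D : Dm) (W : ℤ) (q : Vtx) : Lam D W q ⊆ D.edges :=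
  RE_subset (le_max_left _ _) (min_le_left _ _) (le_max_left _ _) (min_le_left _ _)

theorem bulk_sq_inter {M : ℕ} {R L b c : ℤ} {F T : Finset Edg}
    (h : RE b (b + 4 * L) c (c + 4 * L) ⊆ T) : bulk_sq M R L b c F ↔ bulk_sq M R L b c (F ∩ T) := by
  unfold bulk_sq
  rw [inter_assoc, inter_eq_right.mpr h]

theorem sq_sub {D : Dm} {W L : ℤ} (hWL : 3 * L ≤ W) {q : Vtx} {p p' : ℤ}
    (h1 : q.1 * W - W - L < L * p ∧ L * p < q.1 * W + 2 * W)
    (h2 : q.2 * W - W - L < L * p' ∧ L * p' < q.2 * W + 2 * W)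
    (h3 : D.l ≤ L * p - 2 * L ∧ L * p + 2 * L ≤ D.r)
    (h4 : 0 ≤ L * p' - 2 * L ∧ L * p' + 2 * L ≤ D.h) :
    RE (L * p - 2 * L) (L * p - 2 * L + 4 * L) (L * p' - 2 * L) (L * p' - 2 * L + 4 * L) ⊆
      Lam D W q := by
  unfold Pool.Agent.Y985.ME.Lam
  exact RE_subset (by omega) (by omega) (by omega) (by omega)

/-- The bad event is local. -/
theorem bad_local {M : ℕ} {R L w W : ℤ} (hp : Par R L w W) (D : Dm) (q : Vtx) (F : Finset Edg) :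
    Bad M R L w W D q F ↔ Bad M R L w W D q (F ∩ Lam D W q) := by
  have hWL : 3 * L ≤ W := by
    have := hp.hR
    have := hp.hRL
    have := hp.hw
    have := hp.hWw
    omega
  unfold Bad
  refine or_congr ?_ (or_congr ?_ ?_)
  · unfold BadB
    constructor
    · rintro ⟨p, p', h1, h2, h3, h4, h⟩
      exact ⟨p, p', h1, h2, h3, h4, (bulk_sq_inter (sq_sub hWL h1 h2 h3 h4)).mp h⟩
    · rintro ⟨p, p', h1, h2, h3, h4, h⟩
      exact ⟨p, p', h1, h2, h3, h4, (bulk_sq_inter (sq_sub hWL h1 h2 h3 h4)).mpr h⟩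
  · unfold BadP
    rw [inter_assoc, inter_self]
  · unfold BadD
    have e : ((↑(Lam D W q) ∩ Lay D W (5 * L + 2) q) \ ↑F : Set Edg) =
        ((↑(Lam D W q) ∩ Lay D W (5 * L + 2) q) \ ↑(F ∩ Lam D W q) : Set Edg) := by
      ext e
      simp only [Set.mem_sdiff, Set.mem_inter_iff, Finset.mem_coe, Finset.mem_inter, not_and]
      constructor
      · rintro ⟨h1, h2⟩
        exact ⟨h1, fun h => absurd h h2⟩
      · rintro ⟨h1, h2⟩
        exact ⟨h1, fun h => h2 h h1.1⟩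
    rw [e]

theorem card_le {W L X : ℤ} {n0 : ℕ} (hL : 1 ≤ L) (hW : W ≤ 2 * n0 * L) :
    ((Finset.Icc (X / L) ((X + 3 * W + L) / L)).card : ℝ) ≤ 6 * n0 + 2 := by
  rw [Int.card_Icc]
  have h1 : X < X / L * L + L := by
    have := Int.lt_mul_ediv_self_add (x := X) (k := L) (by omega)
    linarith [mul_comm L (X / L)]
  have h2 : (X + 3 * W + L) / L * L ≤ X + 3 * W + L := Int.ediv_mul_le _ (by omega)
  have h3 : ((X + 3 * W + L) / L - X / L) * L < (6 * (n0 : ℤ) + 2) * L := by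
    have e1 : ((X + 3 * W + L) / L - X / L) * L = (X + 3 * W + L) / L * L - X / L * L := by ring
    have e2 : (6 * (n0 : ℤ) + 2) * L = 3 * (2 * n0 * L) + 2 * L := by ring
    rw [e1, e2]
    linarith
  have h4 : (X + 3 * W + L) / L - X / L < 6 * (n0 : ℤ) + 2 := lt_of_mul_lt_mul_right h3 (by omega)
  have h5 : ((X + 3 * W + L) / L + 1 - X / L).toNat ≤ 6 * n0 + 2 := by omega
  exact_mod_cast h5

theorem Pr_false {S : Finset Edg} {A : Finset Edg → Prop} (h : ∀ F, ¬ A F) :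
    Pr (fun _ => (1/2:ℝ)) S A = 0 := by
  unfold Pr
  rw [Ex_congr (g := fun _ => 0) (fun F _ => ind_not_of (h F)), Ex_const]

/-- Probability of the bad squares. -/
theorem badB_pr {a M M' : ℕ} (hM : M ≤ M') {R L W : ℤ} {n0 : ℕ} {B : ℝ} (hB : 0 ≤ B) (ha : 1 ≤ a)
    (hR : 1 ≤ R) (hL : L = 3 * R + 60 * a) (hW : W ≤ 2 * n0 * L) (hWL : 3 * L ≤ W)
    (hlow : Pr (fun _ => (1/2:ℝ)) (RE 0 (4 * L).toNat 0 (4 * L).toNat) (fun F => ∃ (σ : St) (t : ℕ),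
      inR (3 * R + 60 * a) ((4 * L).toNat - 3 * R - 60 * a) (3 * R + 60 * a)
        ((4 * L).toNat - 3 * R - 60 * a) σ.1 ∧
      Far σ.1 R (orb (↑F) σ t).1 ∧ t < M') ≤ B) (D : Dm) (q : Vtx) :
    P D.edges (BadB M R L W D q) ≤ (6 * (n0:ℝ) + 2) ^ 2 * B := by
  have hL1 : 1 ≤ L := by omega
  have hn : (((4 * L).toNat : ℕ) : ℤ) = 4 * L := by omega
  obtain ⟨I1, hI1⟩ : ∃ I1 : Finset ℤ, I1 = Finset.Icc ((q.1 * W - W - L) / L)
    (((q.1 * W - W - L) + 3 * W + L) / L) := ⟨_, rfl⟩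
  obtain ⟨I2, hI2⟩ : ∃ I2 : Finset ℤ, I2 = Finset.Icc ((q.2 * W - W - L) / L)
    (((q.2 * W - W - L) + 3 * W + L) / L) := ⟨_, rfl⟩
  have c1 : (I1.card : ℝ) ≤ 6 * n0 + 2 := by rw [hI1]; exact card_le hL1 hW
  have c2 : (I2.card : ℝ) ≤ 6 * n0 + 2 := by rw [hI2]; exact card_le hL1 hW
  have hmem : ∀ X p : ℤ, X < L * p → L * p < X + 3 * W + L →
      p ∈ Finset.Icc (X / L) ((X + 3 * W + L) / L) := by
    intro X p h1 h2
    rw [Finset.mem_Icc, Int.le_ediv_iff_mul_le (by omega)]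
    refine ⟨?_, by linarith [mul_comm L p]⟩
    have h3 : X / L * L ≤ X := Int.ediv_mul_le _ (by omega)
    have h4 : X / L * L < p * L := by linarith [mul_comm L p]
    exact (lt_of_mul_lt_mul_right h4 (by omega)).le
  have key : P D.edges (BadB M R L W D q) ≤ (I1.card : ℝ) * ((I2.card : ℝ) * B) := by
    have h0 : P D.edges (BadB M R L W D q) ≤ P D.edges (fun F => ∃ p ∈ I1, ∃ p' ∈ I2,
        RE (L * p - 2 * L) (L * p - 2 * L + 4 * L) (L * p' - 2 * L) (L * p' - 2 * L + 4 * L) ⊆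
          D.edges ∧ bulk_sq M' R L (L * p - 2 * L) (L * p' - 2 * L) F) := by
      refine Pr_mono half_ok ?_
      rintro F _ ⟨p, p', h1, h2, h3, h4, h⟩
      refine ⟨p, ?_, p', ?_, (sq_sub hWL h1 h2 h3 h4).trans (Lam_sub D W q), ?_⟩
      · rw [hI1]; exact hmem _ _ h1.1 (by linarith [h1.2])
      · rw [hI2]; exact hmem _ _ h2.1 (by linarith [h2.2])
      · obtain ⟨σ, t, g1, g2, g3⟩ := h
        exact ⟨σ, t, g1, g2, by omega⟩
    refine h0.trans ?_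
    refine le_trans (Pr_exists_le half_ok _ _ _) ?_
    rw [← nsmul_eq_mul]
    refine Finset.sum_le_card_nsmul _ _ _ fun p hp => ?_
    refine le_trans (Pr_exists_le half_ok _ _ _) ?_
    rw [← nsmul_eq_mul]
    refine Finset.sum_le_card_nsmul _ _ _ fun p' hp' => ?_
    by_cases hS : RE (L * p - 2 * L) (L * p - 2 * L + 4 * L) (L * p' - 2 * L)
        (L * p' - 2 * L + 4 * L) ⊆ D.edges
    · refine le_trans (Pr_mono half_ok (B := bulk_sq M' R L (L * p - 2 * L) (L * p' - 2 * L))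
        (fun F _ h => h.2)) ?_
      exact (bulk_sq_pr hn hL hS).trans hlow
    · rw [Pr_false fun F h => hS h.1]
      exact hB
  refine key.trans ?_
  have : (I1.card : ℝ) * ((I2.card : ℝ) * B) ≤ (6 * (n0:ℝ) + 2) * ((6 * (n0:ℝ) + 2) * B) := by
    gcongr
  refine this.trans (le_of_eq ?_)
  ring

/-- The sides of the region of a block. -/
theorem sides {D : Dm} (hD : D.Ok) {W : ℤ} (hW1 : 1 ≤ W) (hl : 8 * W ≤ -D.l) (hr : 8 * W ≤ D.r)
    (hh : 8 * W ≤ D.h) {q : Vtx} (hq : q ∈ Bks D W) :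
    (2 * W ≤ min D.r (q.1 * W + 3 * W) - max D.l (q.1 * W - 2 * W) ∧
      min D.r (q.1 * W + 3 * W) - max D.l (q.1 * W - 2 * W) ≤ 5 * W) ∧
    (2 * W ≤ min D.h (q.2 * W + 3 * W) - max 0 (q.2 * W - 2 * W) ∧
      min D.h (q.2 * W + 3 * W) - max 0 (q.2 * W - 2 * W) ≤ 5 * W) := by
  unfold Bks at hq
  rw [mem_product, Finset.mem_Icc, Finset.mem_Icc] at hq
  obtain ⟨⟨q1, q2⟩, q3, q4⟩ := hq
  have a1 : q.1 * W ≤ D.r := (Int.le_ediv_iff_mul_le (by omega)).mp q2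
  have a2 : q.2 * W ≤ D.h := (Int.le_ediv_iff_mul_le (by omega)).mp q4
  have a3 : 0 ≤ q.2 * W := mul_nonneg q3 (by omega)
  have a4 : D.l < q.1 * W + W := by
    have h1 : D.l < D.l / W * W + W := by
      have := Int.lt_mul_ediv_self_add (x := D.l) (k := W) (by omega)
      linarith [mul_comm W (D.l / W)]
    have h2 : D.l / W * W ≤ q.1 * W := mul_le_mul_of_nonneg_right q1 (by omega)
    linarith
  refine ⟨⟨?_, ?_⟩, ?_, ?_⟩ <;> omega

theorem ratio {L W x y : ℤ} {n0 : ℕ} (hL : 1 ≤ L) (hW : W ≤ 2 * n0 * L) (hx : x ≤ 5 * W)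
    (hy : y ≤ 5 * W) : ((x : ℝ) + (y : ℝ)) / ((5 * L + 2 : ℤ) : ℝ) ≤ 4 * n0 := by
  have hL' : (1:ℝ) ≤ L := by exact_mod_cast hL
  have hW' : (W:ℝ) ≤ 2 * n0 * L := by exact_mod_cast hW
  have hx' : (x:ℝ) ≤ 5 * W := by exact_mod_cast hx
  have hy' : (y:ℝ) ≤ 5 * W := by exact_mod_cast hy
  have hn0 : (0:ℝ) ≤ n0 := Nat.cast_nonneg _
  push_cast
  rw [div_le_iff₀ (by linarith)]
  nlinarith [mul_nonneg hn0 (show (0:ℝ) ≤ L by linarith)]

/-- Probability of the open path. -/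
theorem badP_pr {D : Dm} (hD : D.Ok) {m : ℕ} {L w W : ℤ} {n0 : ℕ} (hL : 1 ≤ L)
    (hW : W ≤ 2 * n0 * L) (hw : (20 * m + 100) * L ≤ w) (hWw : 4 * w + 1 ≤ W)
    (hl : 8 * W ≤ -D.l) (hr : 8 * W ≤ D.r) (hh : 8 * W ≤ D.h) {q : Vtx} (hq : q ∈ Bks D W) :
    P D.edges (BadP L w W D q) ≤ 4 * (4 * (n0:ℝ) + 4) * (1/2) ^ m := by
  have hm : (0:ℤ) ≤ m := by positivity
  have hmL : (0:ℤ) ≤ m * L := by positivity
  have hw' : 20 * ((m:ℤ) * L) + 100 * L ≤ w := by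
    have : ((20 * (m:ℤ) + 100) * L) = 20 * ((m:ℤ) * L) + 100 * L := by ring
    omega
  have hmL2 : (m : ℤ) ≤ m * L := by nlinarith
  obtain ⟨⟨s1, s2⟩, s3, s4⟩ := sides hD (by omega) hl hr hh hq
  have e1 : P D.edges (BadP L w W D q) = P (Lam D W q) (BadP L w W D q) :=
    Pr_local (Lam_sub D W q) (fun F _ => by unfold BadP; rw [inter_assoc, inter_self])
  rw [e1]
  have h2 := layer_rect (a := max D.l (q.1 * W - 2 * W)) (b := min D.r (q.1 * W + 3 * W))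
    (c := max 0 (q.2 * W - 2 * W)) (d := min D.h (q.2 * W + 3 * W))
    (ρ := 5 * L + 2) (w := w) (m := m) (by omega) (by omega) (by omega) (by
      have : 2 * ((m:ℤ) + 3) * (5 * L + 2 + 1) + 4 * (5 * L + 2) =
        10 * ((m:ℤ) * L) + 6 * m + 50 * L + 26 := by ring
      rw [this]
      omega)
  have h3 : P (Lam D W q) (BadP L w W D q) ≤ P (RE (max D.l (q.1 * W - 2 * W))
      (min D.r (q.1 * W + 3 * W)) (max 0 (q.2 * W - 2 * W)) (min D.h (q.2 * W + 3 * W)))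
      (fun F => ∃ u v : Vtx, w ≤ sd u v ∧
      Reach (↑F ∩ {e | bdr (max D.l (q.1 * W - 2 * W)) (min D.r (q.1 * W + 3 * W))
        (max 0 (q.2 * W - 2 * W)) (min D.h (q.2 * W + 3 * W)) (src e) < 5 * L + 2 ∧
        bdr (max D.l (q.1 * W - 2 * W)) (min D.r (q.1 * W + 3 * W))
        (max 0 (q.2 * W - 2 * W)) (min D.h (q.2 * W + 3 * W)) (tgt e) < 5 * L + 2} :
        Set Edg) u v) := by
    refine Pr_mono half_ok ?_
    rintro F hF ⟨u, v, huv, hr⟩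
    rw [inter_eq_left.mpr hF] at hr
    exact ⟨u, v, huv, hr⟩
  refine h3.trans (h2.trans ?_)
  have h4 := ratio (n0 := n0) hL hW s2 s4
  gcongr

/-- Probability of the closed dual path. -/
theorem badD_pr {D : Dm} (hD : D.Ok) {m : ℕ} {L w W : ℤ} {n0 : ℕ} (hL : 1 ≤ L)
    (hW : W ≤ 2 * n0 * L) (hw : (20 * m + 100) * L ≤ w) (hWw : 4 * w + 1 ≤ W)
    (hl : 8 * W ≤ -D.l) (hr : 8 * W ≤ D.r) (hh : 8 * W ≤ D.h) {q : Vtx} (hq : q ∈ Bks D W) :
    P D.edges (BadD L w W D q) ≤ 4 * (4 * (n0:ℝ) + 8) * (1/2) ^ m := by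
  have hm : (0:ℤ) ≤ m := by positivity
  have hmL : (0:ℤ) ≤ m * L := by positivity
  have hw' : 20 * ((m:ℤ) * L) + 100 * L ≤ w := by
    have : ((20 * (m:ℤ) + 100) * L) = 20 * ((m:ℤ) * L) + 100 * L := by ring
    omega
  have hmL2 : (m : ℤ) ≤ m * L := by nlinarith
  obtain ⟨⟨s1, s2⟩, s3, s4⟩ := sides hD (by omega) hl hr hh hq
  have e1 : P D.edges (BadD L w W D q) = P (Lam D W q) (BadD L w W D q) := by
    refine Pr_local (Lam_sub D W q) (fun F _ => ?_)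
    unfold BadD
    have e : ((↑(Lam D W q) ∩ Lay D W (5 * L + 2) q) \ ↑F : Set Edg) =
        ((↑(Lam D W q) ∩ Lay D W (5 * L + 2) q) \ ↑(F ∩ Lam D W q) : Set Edg) := by
      ext e
      simp only [Set.mem_sdiff, Set.mem_inter_iff, Finset.mem_coe, Finset.mem_inter, not_and]
      constructor
      · rintro ⟨h1, h2⟩
        exact ⟨h1, fun h => absurd h h2⟩
      · rintro ⟨h1, h2⟩
        exact ⟨h1, fun h => h2 h h1.1⟩
    rw [e]
  rw [e1]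
  have h2 := dual_layer_rect (a := max D.l (q.1 * W - 2 * W)) (b := min D.r (q.1 * W + 3 * W))
    (c := max 0 (q.2 * W - 2 * W)) (d := min D.h (q.2 * W + 3 * W))
    (ρ := 5 * L + 2) (w := w - 1) (m := m) (by omega) (by omega) (by omega) (by
      have : 2 * ((m:ℤ) + 3) * (5 * L + 2 + 3) + 4 * (5 * L + 2 + 2) =
        10 * ((m:ℤ) * L) + 10 * m + 50 * L + 46 := by ring
      rw [this]
      omega)
  have h3 : P (Lam D W q) (BadD L w W D q) ≤ P (RE (max D.l (q.1 * W - 2 * W))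
      (min D.r (q.1 * W + 3 * W)) (max 0 (q.2 * W - 2 * W)) (min D.h (q.2 * W + 3 * W)))
      (fun F => ∃ f g : Vtx, w - 1 ≤ sd f g ∧
      DReach ({e | e ∈ RE (max D.l (q.1 * W - 2 * W))
      (min D.r (q.1 * W + 3 * W)) (max 0 (q.2 * W - 2 * W)) (min D.h (q.2 * W + 3 * W)) ∧
        bdr (max D.l (q.1 * W - 2 * W)) (min D.r (q.1 * W + 3 * W))
        (max 0 (q.2 * W - 2 * W)) (min D.h (q.2 * W + 3 * W)) (src e) < 5 * L + 2 ∧
        bdr (max D.l (q.1 * W - 2 * W)) (min D.r (q.1 * W + 3 * W))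
        (max 0 (q.2 * W - 2 * W)) (min D.h (q.2 * W + 3 * W)) (tgt e) < 5 * L + 2} \ ↑F :
        Set Edg) f g) := by
    refine Pr_mono half_ok ?_
    rintro F hF ⟨u, v, huv, hr⟩
    exact ⟨u, v, huv, hr⟩
  refine h3.trans (h2.trans ?_)
  have h4 := ratio (n0 := n0) hL hW s2 s4
  gcongr

/-- The bad event has small probability. -/
theorem badpr {c C : ℝ} (hc : 0 < c) (hC : 0 < C) (hL : LowA c (1/4)) (hU : TwoUp C (1/4)) :
    S_BADPR := by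
  intro η hη
  obtain ⟨c', δ, hc', hδ, hδ1, hall⟩ := allOk_of hc hC hL hU
  obtain ⟨C1, hC1, hlow⟩ := low_steps
  -- the parameter `m`
  obtain ⟨m, hm⟩ : ∃ m : ℕ, (2560 * (m:ℝ) + 12880) * (1/2 : ℝ) ^ m ≤ η / 2 := by
    have t1 := tendsto_self_mul_const_pow_of_lt_one (r := (1/2:ℝ)) (by norm_num) (by norm_num)
    have t2 := tendsto_pow_atTop_nhds_zero_of_lt_one (r := (1/2:ℝ)) (by norm_num) (by norm_num)
    have t3 := (t1.const_mul 2560).add (t2.const_mul 12880)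
    rw [mul_zero, mul_zero, add_zero] at t3
    have t4 := (t3.eventually (gt_mem_nhds (show (0:ℝ) < η / 2 by positivity))).exists
    obtain ⟨m, hm⟩ := t4
    refine ⟨m, ?_⟩
    have : (2560 * (m:ℝ) + 12880) * (1/2 : ℝ) ^ m = 2560 * ((m:ℝ) * (1/2:ℝ) ^ m) +
      12880 * (1/2:ℝ) ^ m := by ring
    rw [this]
    exact hm.le
  obtain ⟨n0, hn0⟩ : ∃ n0 : ℕ, n0 = 80 * m + 401 := ⟨_, rfl⟩
  -- the parameter `K`
  obtain ⟨K, hK⟩ : ∃ K : ℕ, (6 * (n0:ℝ) + 2) ^ 2 *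
      (C1 * (4 * (372 * ((K + 1 : ℕ):ℝ) + 60) + 1) ^ 2 * (1 - δ) ^ K) ≤ η / 2 := by
    rcases eq_or_lt_of_le hδ1 with h1 | h1
    · refine ⟨1, ?_⟩
      rw [h1]
      simp only [sub_self, pow_one, mul_zero]
      positivity
    · have t1 := tendsto_pow_const_mul_const_pow_of_lt_one 2 (r := 1 - δ) (by linarith) (by linarith)
      have t2 := t1.const_mul ((6 * (n0:ℝ) + 2) ^ 2 * (C1 * 3458 ^ 2))
      rw [mul_zero] at t2
      obtain ⟨K, hK1, hK2⟩ := ((t2.eventually (gt_mem_nhds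
        (show (0:ℝ) < η / 2 by positivity))).and (Filter.eventually_ge_atTop 1)).exists
      refine ⟨K, le_trans ?_ hK1.le⟩
      have hK2' : (1:ℝ) ≤ K := by exact_mod_cast hK2
      have hq0 : 0 ≤ (1 - δ) ^ K := pow_nonneg (by linarith) _
      have h5 : (4 * (372 * ((K + 1 : ℕ):ℝ) + 60) + 1) ^ 2 ≤ (3458 * (K:ℝ)) ^ 2 := by
        refine pow_le_pow_left₀ (by positivity) ?_ 2
        push_cast
        linarith
      calc (6 * (n0:ℝ) + 2) ^ 2 * (C1 * (4 * (372 * ((K + 1 : ℕ):ℝ) + 60) + 1) ^ 2 * (1 - δ) ^ K)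
          ≤ (6 * (n0:ℝ) + 2) ^ 2 * (C1 * (3458 * (K:ℝ)) ^ 2 * (1 - δ) ^ K) := by gcongr
        _ = (6 * (n0:ℝ) + 2) ^ 2 * (C1 * 3458 ^ 2) * ((K:ℝ) ^ 2 * (1 - δ) ^ K) := by ring
  obtain ⟨L1, hL1d⟩ : ∃ L1 : ℕ, L1 = 372 * (K + 1) + 60 := ⟨_, rfl⟩
  obtain ⟨G, hG⟩ : ∃ G : ℕ, G = n0 * L1 := ⟨_, rfl⟩
  have hL11 : 1 ≤ L1 := by omega
  have hn01 : 1 ≤ n0 := by omega
  have hG1 : 1 ≤ G := by rw [hG]; exact Nat.mul_pos hn01 hL11
  have hGr : (1:ℝ) ≤ G := by exact_mod_cast hG1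
  refine ⟨c' / (2 * G : ℝ) ^ (7/4 : ℝ), 5 * G, by positivity, by positivity, fun W hsW => ?_⟩
  have hsW' : 5 * (G : ℤ) ≤ W := by exact_mod_cast hsW
  have hGz : (1:ℤ) ≤ G := by exact_mod_cast hG1
  -- the scale `a`
  obtain ⟨a, ha⟩ : ∃ a : ℕ, (a : ℤ) = W / G := ⟨(W / G).toNat, by
    rw [Int.toNat_of_nonneg (Int.ediv_nonneg (by omega) (by omega))]⟩
  have haz : (5:ℤ) ≤ a := by
    rw [ha, Int.le_ediv_iff_mul_le (by omega)]
    exact hsW'
  have haW : (a:ℤ) * G ≤ W := by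
    rw [ha]
    exact Int.ediv_mul_le _ (by omega)
  have hWa : W < (a:ℤ) * G + G := by
    rw [ha]
    have := Int.lt_mul_ediv_self_add (x := W) (k := (G : ℤ)) (by omega)
    linarith [mul_comm (G : ℤ) (W / G)]
  have hGa : (G : ℤ) ≤ a * G := by nlinarith
  obtain ⟨R, hR⟩ : ∃ R : ℤ, R = 124 * (a:ℤ) * (K + 1 : ℕ) := ⟨_, rfl⟩
  obtain ⟨L, hLd⟩ : ∃ L : ℤ, L = 3 * R + 60 * a := ⟨_, rfl⟩
  obtain ⟨w, hwd⟩ : ∃ w : ℤ, w = (20 * m + 100) * L := ⟨_, rfl⟩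
  have hLa : L = a * L1 := by
    rw [hLd, hR, hL1d]
    push_cast
    ring
  have hn0L : (n0 : ℤ) * L = a * G := by
    rw [hLa, hG]
    push_cast
    ring
  have hW1 : (n0 : ℤ) * L ≤ W := by rw [hn0L]; exact haW
  have hW2 : W ≤ 2 * n0 * L := by
    have : 2 * (n0 : ℤ) * L = 2 * (n0 * L) := by ring
    rw [this, hn0L]
    linarith
  have haK : (a:ℤ) * 1 ≤ (a:ℤ) * (K + 1 : ℕ) := mul_le_mul_of_nonneg_left (by push_cast; omega) (by omega)
  have hR1 : 121 * (a:ℤ) * (K + 1 : ℕ) + a + 2 ≤ R := by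
    have e1 : R = 121 * (a:ℤ) * (K + 1 : ℕ) + 3 * ((a:ℤ) * (K + 1 : ℕ)) := by rw [hR]; ring
    rw [e1]
    omega
  have hR0 : 1 ≤ R := by
    have : (0:ℤ) ≤ 121 * (a:ℤ) * (K + 1 : ℕ) := by positivity
    omega
  have hL1 : 1 ≤ L := by omega
  have hw2 : w = 20 * ((m:ℤ) * L) + 100 * L := by rw [hwd]; ring
  have hW3 : 80 * ((m:ℤ) * L) + 401 * L ≤ W := by
    have : (n0 : ℤ) * L = 80 * ((m:ℤ) * L) + 401 * L := by rw [hn0]; push_cast; ring
    rw [← this]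
    exact hW1
  have hmL : (0:ℤ) ≤ (m:ℤ) * L := by positivity
  have hpar : Par R L w W := ⟨hR0, by omega, by omega, by omega⟩
  refine ⟨R, L, w, hpar, fun D hD hl hr hh q hq => ?_⟩
  have hn : (((4 * L).toNat : ℕ) : ℤ) = 4 * L := by omega
  have hl' := hlow (4 * L).toNat a (K + 1) _ δ R (by omega) (by omega) hδ.le hδ1
    (hall _ a (by omega)) hR1
  rw [Nat.add_sub_cancel] at hl'
  have hnr : (((4 * L).toNat : ℕ) : ℝ) / a = 4 * (372 * ((K + 1 : ℕ):ℝ) + 60) := by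
    have h1 : (((4 * L).toNat : ℕ) : ℝ) = ((4 * L : ℤ) : ℝ) := by exact_mod_cast hn
    rw [h1, hLd, hR]
    have ha0 : (a:ℝ) ≠ 0 := by
      have : a ≠ 0 := by omega
      exact_mod_cast this
    push_cast
    field_simp
    ring
  rw [hnr] at hl'
  have hB0 : 0 ≤ C1 * (4 * (372 * ((K + 1 : ℕ):ℝ) + 60) + 1) ^ 2 * (1 - δ) ^ K := by
    have : 0 ≤ (1 - δ) ^ K := pow_nonneg (by linarith) _
    positivity
  have hMM : ⌈c' / (2 * G : ℝ) ^ (7/4 : ℝ) * (W : ℝ) ^ (7/4 : ℝ)⌉₊ ≤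
      ⌈c' * (a:ℝ) ^ (7/4 : ℝ)⌉₊ := by
    apply Nat.ceil_mono
    have h1 : (W : ℝ) ≤ 2 * G * a := by
      have : W ≤ 2 * G * a := by linarith [mul_comm (a : ℤ) G]
      exact_mod_cast this
    have hW0 : (0:ℝ) ≤ W := by
      have : 0 ≤ W := by omega
      exact_mod_cast this
    have h2 : (W : ℝ) ^ (7/4 : ℝ) ≤ (2 * G : ℝ) ^ (7/4 : ℝ) * (a : ℝ) ^ (7/4 : ℝ) := by
      rw [← Real.mul_rpow (by positivity) (by positivity)]
      exact Real.rpow_le_rpow hW0 h1 (by norm_num)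
    have h3 : 0 < (2 * G : ℝ) ^ (7/4 : ℝ) := by positivity
    calc c' / (2 * G : ℝ) ^ (7/4 : ℝ) * (W : ℝ) ^ (7/4 : ℝ) ≤
        c' / (2 * G : ℝ) ^ (7/4 : ℝ) * ((2 * G : ℝ) ^ (7/4 : ℝ) * (a : ℝ) ^ (7/4 : ℝ)) := by
          gcongr
      _ = c' * (a:ℝ) ^ (7/4 : ℝ) := by
          field_simp
  have b1 := badB_pr hMM (W := W) (n0 := n0) hB0 (by omega) hR0 hLd hW2 (by omega) hl' D q
  have b2 : P D.edges (fun F => BadP L w W D q F ∨ BadD L w W D q F) ≤ η / 2 := by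
    refine (Pr_or_le half_ok _ _ _).trans ?_
    have p1 := badP_pr hD (m := m) hL1 hW2 (by rw [hwd]) hpar.hWw hl hr hh hq
    have p2 := badD_pr hD (m := m) hL1 hW2 (by rw [hwd]) hpar.hWw hl hr hh hq
    refine (add_le_add p1 p2).trans (le_trans (le_of_eq ?_) hm)
    rw [hn0]
    push_cast
    ring
  unfold Bad
  refine (Pr_or_le half_ok _ _ _).trans ?_
  have := add_le_add (b1.trans hK) b2
  linarith

end Pool.Agent.Y991.ME
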